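import Pool.Agent.Helper39.KT.Main

namespace Pool.Agent.Results.MP_24de9c_co.FourTorus

open Pool.Agent.Helper39.KT

/-- A finite abstract simplicial complex: a finite family of nonempty finite sets (the faces; the
vertices are natural numbers) which is closed under nonempty subsets. -/
structure Complex where
  faces : Finset (Finset ℕ)
  nonempty : ∀ s ∈ faces, s.Nonempty
  down : ∀ s ∈ faces, ∀ t, t ⊆ s → t.Nonempty → t ∈ faces

/-- Geometric realisation in barycentric coordinates: the functions x ≥ 0 on the vertices which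
vanish outside some face s and have sum one over s, as a subspace of ℕ → ℝ. -/
def Complex.space (K : Complex) : Set (ℕ → ℝ) :=
  {x | (∀ v, 0 ≤ x v) ∧ ∃ s ∈ K.faces, (∀ v, v ∉ s → x v = 0) ∧ ∑ v ∈ s, x v = 1}

/-- The number f_i of i-dimensional faces (faces with i + 1 vertices). -/
def Complex.f (K : Complex) (i : ℕ) : ℕ := (K.faces.filter (fun s => s.card = i + 1)).card

/-- the complex with facets F -/
def ofFacets (F : Finset (Finset ℕ)) : Complex where
  faces := (F.biUnion Finset.powerset).erase ∅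
  nonempty := by
    intro s hs
    exact Finset.nonempty_iff_ne_empty.2 (Finset.ne_of_mem_erase hs)
  down := by
    intro s hs t hts ht
    rw [Finset.mem_erase, Finset.mem_biUnion] at hs ⊢
    obtain ⟨-, σ, hσ, hs⟩ := hs
    exact ⟨Finset.nonempty_iff_ne_empty.1 ht, σ, hσ,
      Finset.mem_powerset.2 (hts.trans (Finset.mem_powerset.1 hs))⟩

theorem space_ofFacets {F : Finset (Finset ℕ)} (h : ∀ σ ∈ F, σ.Nonempty) :
    (ofFacets F).space = Rl F := by
  ext x
  constructor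
  · rintro ⟨h0, s, hs, h1, h2⟩
    rw [ofFacets, Finset.mem_erase, Finset.mem_biUnion] at hs
    obtain ⟨-, σ, hσ, hs⟩ := hs
    have hsσ := Finset.mem_powerset.1 hs
    refine ⟨h0, σ, hσ, fun v hv => h1 v fun hvs => hv (hsσ hvs), ?_⟩
    rw [← h2]
    exact (Finset.sum_subset hsσ fun v _ hv => h1 v hv).symm
  · rintro ⟨h0, σ, hσ, h1, h2⟩
    refine ⟨h0, σ, ?_, h1, h2⟩
    rw [ofFacets, Finset.mem_erase, Finset.mem_biUnion]
    exact ⟨Finset.nonempty_iff_ne_empty.1 (h σ hσ), σ, hσ, Finset.mem_powerset.2 subset_rfl⟩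

theorem f_ofFacets (F : Finset (Finset ℕ)) (i : ℕ) : (ofFacets F).f i = fv F i := by
  unfold Complex.f fv ofFacets
  congr 1
  ext s
  simp only [Finset.mem_filter, Finset.mem_erase]
  constructor
  · rintro ⟨⟨-, h⟩, hc⟩
    exact ⟨h, hc⟩
  · rintro ⟨h, hc⟩
    refine ⟨⟨?_, h⟩, hc⟩
    rintro rfl
    simp at hc

/-- For all n ≥ 32 and all e with 5 n + 288 ≤ e ≤ n (n - 1) / 2 there is a triangulation of the
4-torus with f-vector (n, e, 4 e - 10 n, 5 e - 15 n, 2 e - 6 n). -/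
theorem result (n e : ℕ) (hn : 32 ≤ n) (h1 : 5 * n + 288 ≤ e) (h2 : e ≤ n.choose 2) :
    ∃ K : Complex, Nonempty (K.space ≃ₜ (Fin 4 → Circle)) ∧ (∀ s ∈ K.faces, s.card ≤ 5) ∧
      K.f 0 = n ∧ K.f 1 = e ∧ (K.f 2 : ℤ) = 4 * e - 10 * n ∧ (K.f 3 : ℤ) = 5 * e - 15 * n ∧
      (K.f 4 : ℤ) = 2 * e - 6 * n := by
  have h3 : 2 * e ≤ n * (n - 1) := by
    rw [Nat.choose_two_right] at h2
    have := Nat.div_mul_le_self (n * (n - 1)) 2
    omega
  obtain ⟨F, hF⟩ := all_tor n hn e h1 h3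
  have hne : ∀ σ ∈ F, σ.Nonempty := fun σ hσ => by
    rw [← Finset.card_pos, hF.pure5 σ hσ]; norm_num
  refine ⟨ofFacets F, ?_, ?_, ?_, ?_, ?_, ?_, ?_⟩
  · obtain ⟨φ⟩ := hF.homeo
    rw [space_ofFacets hne]
    exact ⟨φ.trans (Homeomorph.piCongrRight fun _ => AddCircle.homeomorphCircle one_ne_zero)⟩
  · intro s hs
    rw [ofFacets, Finset.mem_erase, Finset.mem_biUnion] at hs
    obtain ⟨-, σ, hσ, hs⟩ := hs
    exact (Finset.card_le_card (Finset.mem_powerset.1 hs)).trans (hF.pure5 σ hσ).le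
  · rw [f_ofFacets]; exact hF.f0
  · rw [f_ofFacets]; exact hF.f1
  · rw [f_ofFacets]; have := hF.f2; omega
  · rw [f_ofFacets]; have := hF.f3; omega
  · rw [f_ofFacets]; have := hF.f4; omega

end Pool.Agent.Results.MP_24de9c_co.FourTorus
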